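import Pool.Agent.Y738.PE.Stm3

/-! # Convergence of supergradients at a point of differentiability -/

open scoped BigOperators ComplexConjugate Classical Topology

namespace Pool.Agent.Y931.PE

/-- One direction: a one-sided bound from one point. -/
theorem grad_dir {E : Type} [NormedAddCommGroup E] [NormedSpace ℝ E]
    (g : ℕ → E → ℝ) (F : E → ℝ) (X : E) (F' : E →L[ℝ] ℝ)
    (hF : HasFDerivAt F F' X)
    (hg : ∀ Z, Filter.Tendsto (fun L => g L Z) Filter.atTop (𝓝 (F Z)))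
    (v : E) (δ : ℝ) (hδ : 0 < δ) :
    ∃ L₁ : ℕ, ∀ L, L₁ ≤ L → ∀ ρ : E →ₗ[ℝ] ℝ,
      (∀ Z, g L Z ≤ g L X + ρ (Z - X)) → F' v - δ ≤ ρ v := by
  have h1 : Filter.Tendsto (fun t : ℝ => t⁻¹ • (F (X + t • v) - F X)) (𝓝[≠] 0)
      (𝓝 (F' v)) := by
    have h := hF.hasLineDerivAt v
    have h2 : HasDerivAt (fun t : ℝ => F (X + t • v)) (F' v) 0 := h
    have h3 := hasDerivAt_iff_tendsto_slope_zero.1 h2
    simpa using h3
  have h2 : Filter.Tendsto (fun t : ℝ => t⁻¹ • (F (X + t • v) - F X)) (𝓝[>] 0)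
      (𝓝 (F' v)) := h1.mono_left (nhdsWithin_mono _ (fun x hx => ne_of_gt hx))
  have h3 : ∀ᶠ t : ℝ in 𝓝[>] 0, F' v - δ / 2 < t⁻¹ • (F (X + t • v) - F X) :=
    h2.eventually (lt_mem_nhds (by linarith))
  obtain ⟨t, ht, ht0⟩ := (h3.and self_mem_nhdsWithin).exists
  have ht0' : 0 < t := ht0
  have h4 : t * (F' v - δ / 2) < F (X + t • v) - F X := by
    have h5 := mul_lt_mul_of_pos_left ht ht0'
    rwa [smul_eq_mul, ← mul_assoc, mul_inv_cancel₀ ht0'.ne', one_mul] at h5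
  have ha : ∀ᶠ L in Filter.atTop, |g L (X + t • v) - F (X + t • v)| < δ * t / 4 := by
    have := (Metric.tendsto_nhds.1 (hg (X + t • v))) (δ * t / 4) (by positivity)
    simpa [Real.dist_eq] using this
  have hb : ∀ᶠ L in Filter.atTop, |g L X - F X| < δ * t / 4 := by
    have := (Metric.tendsto_nhds.1 (hg X)) (δ * t / 4) (by positivity)
    simpa [Real.dist_eq] using this
  obtain ⟨L₁, hL₁⟩ := Filter.eventually_atTop.1 (ha.and hb)
  refine ⟨L₁, fun L hL ρ hρ => ?_⟩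
  obtain ⟨h5, h6⟩ := hL₁ L hL
  have h7 := hρ (X + t • v)
  rw [add_sub_cancel_left, map_smul, smul_eq_mul] at h7
  rw [abs_lt] at h5 h6
  have h8 : t * (F' v - δ) ≤ t * ρ v := by nlinarith
  exact le_of_mul_le_mul_left h8 ht0'

theorem grad : Pool.Agent.Y738.PE.StmGrad := by
  intro E _ _ _ g F X F' hF hg δ hδ
  -- a basis
  let b := Module.finBasis ℝ E
  let n := Module.finrank ℝ E
  -- bound for the coordinates
  obtain ⟨C, hC0, hC⟩ : ∃ C : ℝ, 0 ≤ C ∧ ∀ Y : E, ∑ i, |b.repr Y i| ≤ C * ‖Y‖ := by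
    have h1 : ∀ i, ∃ c : ℝ, 0 ≤ c ∧ ∀ Y : E, |b.repr Y i| ≤ c * ‖Y‖ := by
      intro i
      refine ⟨‖LinearMap.toContinuousLinearMap (b.coord i)‖, norm_nonneg _, fun Y => ?_⟩
      have := (LinearMap.toContinuousLinearMap (b.coord i)).le_opNorm Y
      simpa [Real.norm_eq_abs] using this
    choose c hc0 hc using h1
    refine ⟨∑ i, c i, Finset.sum_nonneg (fun i _ => hc0 i), fun Y => ?_⟩
    rw [Finset.sum_mul]
    exact Finset.sum_le_sum (fun i _ => hc i Y)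
  have hC1 : 0 < C + 1 := by linarith
  have hδ' : 0 < δ / (C + 1) := by positivity
  choose L₁ hL₁ using fun i => grad_dir g F X F' hF hg (b i) (δ / (C + 1)) hδ'
  choose L₂ hL₂ using fun i => grad_dir g F X F' hF hg (-(b i)) (δ / (C + 1)) hδ'
  refine ⟨(Finset.univ.sup L₁) ⊔ (Finset.univ.sup L₂), fun L hL ρ hρ Y => ?_⟩
  have hbd : ∀ i, |ρ (b i) - F' (b i)| ≤ δ / (C + 1) := by
    intro i
    have h1 := hL₁ i L (le_trans (le_trans (Finset.le_sup (f := L₁) (Finset.mem_univ i))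
      le_sup_left) hL) ρ hρ
    have h2 := hL₂ i L (le_trans (le_trans (Finset.le_sup (f := L₂) (Finset.mem_univ i))
      le_sup_right) hL) ρ hρ
    rw [map_neg, map_neg] at h2
    rw [abs_le]
    constructor <;> linarith
  have hY : ρ Y - F' Y = ∑ i, b.repr Y i * (ρ (b i) - F' (b i)) := by
    have h1 : ρ Y = ∑ i, b.repr Y i * ρ (b i) := by
      conv_lhs => rw [← b.sum_repr Y, map_sum]
      exact Finset.sum_congr rfl (fun i _ => by rw [map_smul, smul_eq_mul])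
    have h2 : F' Y = ∑ i, b.repr Y i * F' (b i) := by
      conv_lhs => rw [← b.sum_repr Y, map_sum]
      exact Finset.sum_congr rfl (fun i _ => by rw [map_smul, smul_eq_mul])
    rw [h1, h2, ← Finset.sum_sub_distrib]
    exact Finset.sum_congr rfl (fun i _ => by ring)
  rw [hY]
  calc |∑ i, b.repr Y i * (ρ (b i) - F' (b i))|
      ≤ ∑ i, |b.repr Y i * (ρ (b i) - F' (b i))| := Finset.abs_sum_le_sum_abs _ _
    _ ≤ ∑ i, |b.repr Y i| * (δ / (C + 1)) := by
        refine Finset.sum_le_sum (fun i _ => ?_)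
        rw [abs_mul]
        exact mul_le_mul_of_nonneg_left (hbd i) (abs_nonneg _)
    _ = (∑ i, |b.repr Y i|) * (δ / (C + 1)) := by rw [Finset.sum_mul]
    _ ≤ (C * ‖Y‖) * (δ / (C + 1)) := mul_le_mul_of_nonneg_right (hC Y) hδ'.le
    _ = (δ * ‖Y‖) * (C / (C + 1)) := by ring
    _ ≤ (δ * ‖Y‖) * 1 := by
        refine mul_le_mul_of_nonneg_left ?_ (by positivity)
        rw [div_le_one hC1]
        linarith
    _ = δ * ‖Y‖ := mul_one _

end Pool.Agent.Y931.PE
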